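import Pool.Agent.HWR.Final

/-!
# Quadratic descent for the Hasse-Weil conjecture

`E : y² = x³ + A x + B` with `A, B ∈ ℤ`, `K` any number field, `T` a finite set of primes containing
the primes below `101` and those dividing `4A³ + 27B²`.  If `E` satisfies the Hasse-Weil conjecture
(entire completed L-function of finite order in vertical strips, with its functional equation) over
all totally complex quadratic extensions `K'` of `K` in which all places above `T` split, then
`L(E/K, s)` extends holomorphically to `Re s > 1`.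
-/

namespace Pool.Agent.Results.MP_bf9450_nt.QuadraticDescent

open NumberField IsDedekindDomain

section Places

variable {K : Type} [Field K] [NumberField K]

/-- The finite place `v` of `K` does not lie above a prime of `T`. -/
def AwayFrom (T : Finset ℕ) (v : HeightOneSpectrum (𝓞 K)) : Prop :=
  ∀ p ∈ T, ((p : ℕ) : 𝓞 K) ∉ v.asIdeal

/-- The norm `N v` of a finite place. -/
noncomputable def norm (v : HeightOneSpectrum (𝓞 K)) : ℕ := Ideal.absNorm v.asIdeal

/-- The number of affine points of `y² = x³ + A x + B` over the residue field `𝓞 K / v`; with the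
point at infinity `#E(k_v)` is this number plus one. -/
noncomputable def affinePoints (A B : ℤ) (v : HeightOneSpectrum (𝓞 K)) : ℕ :=
  Nat.card {P : (𝓞 K ⧸ v.asIdeal) × (𝓞 K ⧸ v.asIdeal) //
    P.2 ^ 2 = P.1 ^ 3 + (A : 𝓞 K ⧸ v.asIdeal) * P.1 + (B : 𝓞 K ⧸ v.asIdeal)}

/-- `a_v = N v + 1 - #E(k_v)`, the trace of Frobenius at a place of good reduction. -/
noncomputable def trace (A B : ℤ) (v : HeightOneSpectrum (𝓞 K)) : ℝ :=
  (norm v : ℝ) - (affinePoints A B v : ℝ)

/-- The Euler factor `(1 - a_v N v^(-s) + N v^(1-2s))⁻¹` of `L(E/K, s)` at a good place `v`. -/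
noncomputable def eulerFactor (A B : ℤ) (v : HeightOneSpectrum (𝓞 K)) (s : ℂ) : ℂ :=
  (1 - (trace A B v : ℂ) * (norm v : ℂ) ^ (-s) + (norm v : ℂ) ^ (1 - 2 * s))⁻¹

end Places

/-- The product of the Euler factors of `L(E/K, s)` at the finite places of `K` not above `T`. -/
noncomputable def goodPart (A B : ℤ) (K : Type) [Field K] [NumberField K] (T : Finset ℕ)
    (s : ℂ) : ℂ :=
  ∏' v : {v : HeightOneSpectrum (𝓞 K) // AwayFrom T v}, eulerFactor A B v.1 s

/-- A finite product of factors `(1 - α q^(-s))⁻¹`, one for each pair `(α, q)` in the list: the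
Euler factors of `L(E/K, s)` at the places above `T`. -/
noncomputable def badPart (L : List (ℂ × ℕ)) (s : ℂ) : ℂ :=
  (L.map fun x => (1 - x.1 * (x.2 : ℂ) ^ (-s))⁻¹).prod

/-- The finite place `v` of `K` splits in the quadratic extension `K'`: two places lie above it. -/
def SplitsIn {K : Type} [Field K] [NumberField K] (K' : Type) [Field K'] [NumberField K']
    [Algebra K K'] (v : HeightOneSpectrum (𝓞 K)) : Prop :=
  (v.asIdeal.primesOver (𝓞 K')).ncard = 2

/-- Finite order in vertical strips: `|F(s)| ≤ exp (C (1 + |Im s|)^c)` for `a ≤ Re s ≤ b`.  This is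
implied by boundedness in vertical strips, and also by finite order. -/
def FiniteOrderInStrips (F : ℂ → ℂ) : Prop :=
  ∀ a b : ℝ, ∃ c C : ℝ, ∀ s : ℂ, a ≤ s.re → s.re ≤ b →
    ‖F s‖ ≤ Real.exp (C * (1 + |s.im|) ^ c)

/-- The Hasse-Weil conjecture for `E` over a totally complex quadratic extension `K'` of `K` in
which the places above `T` split.  Here `Q` is the norm of the conductor of `E` over `K'` (the same
for all such `K'`: the square of the norm of the conductor over `K`), so that
`A_{E/K'} = disc(K')² Q`; every Euler factor of `E/K` above `T` occurs twice over `K'`; the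
archimedean factor is `((2π)^(-s) Γ(s))^[K':ℚ]`; the root number is `(-1)^[K:ℚ]`. -/
def HasseWeil (A B : ℤ) (K : Type) [Field K] [NumberField K] (K' : Type) [Field K']
    [NumberField K'] (T : Finset ℕ) (Q : ℝ) (L : List (ℂ × ℕ)) : Prop :=
  ∃ Lam : ℂ → ℂ, Differentiable ℂ Lam ∧ FiniteOrderInStrips Lam ∧
    (∀ s : ℂ, Lam (2 - s) = (-1) ^ Module.finrank ℚ K * Lam s) ∧
    ∀ s : ℂ, 3 / 2 < s.re →
      Lam s = ((Q * (NumberField.discr K' : ℝ) ^ 2 : ℝ) : ℂ) ^ (s / 2) *
        ((2 * Real.pi : ℂ) ^ (-s) * Complex.Gamma s) ^ Module.finrank ℚ K' *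
          (badPart L s ^ 2 * goodPart A B K' T s)

/-- If `E : y² = x³ + A x + B` satisfies the Hasse-Weil conjecture over all totally complex
quadratic extensions `K'` of the number field `K` in which the places above `T` split, then
`L(E/K, s)` has a holomorphic continuation to the half plane `Re s > 1`. -/
theorem result (A B : ℤ) (K : Type) [Field K] [NumberField K] (T : Finset ℕ)
    (hTp : ∀ p ∈ T, p.Prime) (hT : ∀ p : ℕ, p.Prime → p < 101 → p ∈ T)
    (hbad : ∀ p : ℕ, p.Prime → (p : ℤ) ∣ 4 * A ^ 3 + 27 * B ^ 2 → p ∈ T)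
    (Q : ℝ) (hQ : 0 < Q) (L : List (ℂ × ℕ)) (hL : ∀ x ∈ L, 2 ≤ x.2 ∧ ‖x.1‖ ≤ x.2)
    (H : ∀ (K' : Type) [Field K'] [NumberField K'] [Algebra K K'], Module.finrank K K' = 2 →
      IsTotallyComplex K' → (∀ v : HeightOneSpectrum (𝓞 K), ¬ AwayFrom T v → SplitsIn K' v) →
      HasseWeil A B K K' T Q L) :
    ∃ F : ℂ → ℂ, DifferentiableOn ℂ F {s : ℂ | 1 < s.re} ∧
      ∀ s : ℂ, 3 / 2 < s.re → F s = badPart L s * goodPart A B K T s :=
  Pool.Agent.HWR.main_elliptic A B K T hTp hT hbad hQ L hL H

end Pool.Agent.Results.MP_bf9450_nt.QuadraticDescent
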